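import Pool.Agent.H20.Eng

open Pool.Agent.H20.Eng

namespace Pool.Agent.Results.MP_2c0ed3_al.Counter

theorem result (F : Type) [Field F] : ∃ (A : Type) (_ : LieRing A) (_ : LieAlgebra F A),
    IsEngel A ∧ ∃ a : A, a ∈ lieRad F A ∧ R F A a ∉ assocRad F A := main F

end Pool.Agent.Results.MP_2c0ed3_al.Counter
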